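import Pool.Agent.Helper12.RQ.Goals
import Pool.Agent.Helper12.RQ.Polar

set_option autoImplicit false

open MeasureTheory Set Filter Topology Metric

open scoped ENNReal NNReal ContDiff

namespace Pool.Agent.Helper64.RQ

open Pool.Agent.Helper12.RQ

lemma a_id (n : ℕ) (p α : ℝ) (hp : 1 < p) (hα : 1 < α) :
    α * ((-bexp n p α - 1) * (1 - p) - ((n : ℝ) - 1)) + ((n : ℝ) - 1) = -bexp n p α - 1 := by
  have h : 0 < α * (p - 1) + 1 := by nlinarith [mul_pos (by linarith : 0 < α) (by linarith : 0 < p - 1)]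
  unfold bexp
  field_simp
  ring

/-- the integrand -/
lemma integrand (n : ℕ) (p α : ℝ) (hn : 1 ≤ n) (hp : 1 < p) (hα : 1 < α) (s : ℝ) (hs : 0 < s) :
    ENNReal.ofReal ((s ^ (-bexp n p α - 1)) ^ (1 - p) / (om n * s ^ (n - 1))) ^ α *
      ENNReal.ofReal (s ^ (n - 1)) =
    ENNReal.ofReal (om n ^ (-α) * s ^ (-bexp n p α - 1)) := by
  have hom := om_pos n hn
  have hX : 0 ≤ (s ^ (-bexp n p α - 1)) ^ (1 - p) / (om n * s ^ (n - 1)) := by positivity
  rw [ENNReal.ofReal_rpow_of_nonneg hX (by linarith), ← ENNReal.ofReal_mul (by positivity)]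
  congr 1
  have e1 : s ^ (n - 1) = s ^ ((n : ℝ) - 1) := by
    rw [← Real.rpow_natCast, Nat.cast_sub hn, Nat.cast_one]
  rw [e1, ← Real.rpow_mul hs.le, Real.div_rpow (by positivity) (by positivity),
    Real.mul_rpow hom.le (by positivity), ← Real.rpow_mul hs.le, ← Real.rpow_mul hs.le,
    Real.rpow_neg hom.le]
  have e2 : s ^ (-bexp n p α - 1) =
      s ^ ((-bexp n p α - 1) * (1 - p) * α) / s ^ (((n : ℝ) - 1) * α) * s ^ ((n : ℝ) - 1) := by
    rw [← Real.rpow_sub hs, ← Real.rpow_add hs]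
    congr 1
    have := a_id n p α hp hα
    linarith
  conv_rhs => rw [e2]
  have : 0 < om n ^ α := by positivity
  have : 0 < s ^ (((n : ℝ) - 1) * α) := by positivity
  field_simp

/-- the annulus -/
lemma ann (n : ℕ) (p α r R : ℝ) (hn : 1 ≤ n) (hp : 1 < p) (hα : 1 < α) (hr : 0 < r)
    (hrR : r < R) :
    ∫⁻ x in {x : E n | ‖x‖ ∈ Ioo r R},
      ENNReal.ofReal ((‖x‖ ^ (-bexp n p α - 1)) ^ (1 - p) / (om n * ‖x‖ ^ (n - 1))) ^ α =
    ENNReal.ofReal (om n ^ (1 - α) * ∫ s in r..R, s ^ (-bexp n p α - 1)) := by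
  have hom := om_pos n hn
  rw [polar n hn (fun s => ENNReal.ofReal ((s ^ (-bexp n p α - 1)) ^ (1 - p) /
    (om n * s ^ (n - 1))) ^ α) (by fun_prop) (Ioo r R) measurableSet_Ioo
    (fun s hs => lt_trans hr hs.1)]
  rw [setLIntegral_congr_fun measurableSet_Ioo
    (fun s hs => integrand n p α hn hp hα s (lt_trans hr hs.1))]
  have hint : IntervalIntegrable (fun s : ℝ => s ^ (-bexp n p α - 1)) volume r R := by
    apply intervalIntegral.intervalIntegrable_rpow
    right
    rw [uIcc_of_le hrR.le]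
    intro h
    exact absurd h.1 (not_le.mpr hr)
  have hint2 : IntegrableOn (fun s : ℝ => om n ^ (-α) * s ^ (-bexp n p α - 1)) (Ioo r R) := by
    rw [intervalIntegrable_iff_integrableOn_Ioo_of_le hrR.le] at hint
    exact hint.const_mul _
  rw [← ofReal_integral_eq_lintegral_ofReal hint2, ← ENNReal.ofReal_mul hom.le]
  · congr 1
    rw [intervalIntegral.integral_of_le hrR.le, integral_Ioc_eq_integral_Ioo,
      integral_const_mul]
    rw [← mul_assoc]
    congr 1
    rw [sub_eq_add_neg, Real.rpow_add hom, Real.rpow_one]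
  · refine (ae_restrict_mem measurableSet_Ioo).mono fun s hs => ?_
    have : 0 < s := lt_trans hr hs.1
    simp only [Pi.zero_apply]
    positivity

theorem sh (h1 : StmtPROF) (h2 : StmtPOS) : StmtSH := by
  intro n p hn2 hnp hpn α r R ε hα hr hrR hε
  have hn : 1 ≤ n := by omega
  have hn2' : (2 : ℝ) ≤ n := by exact_mod_cast hn2
  have hp : 1 < p := by linarith
  have hom := om_pos n hn
  obtain ⟨hc0, hctop⟩ := h2 n p hn2 hnp hpn
  have hkap : 0 < kap n p := ENNReal.toReal_pos hc0.ne' hctop.ne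
  set a : ℝ := -bexp n p α - 1 with ha
  have hIpos : 0 < ∫ s in r..R, s ^ a := by
    apply intervalIntegral.intervalIntegral_pos_of_pos_on
    · apply intervalIntegral.intervalIntegrable_rpow
      right
      rw [uIcc_of_le hrR.le]
      intro h
      exact absurd h.1 (not_le.mpr hr)
    · intro s hs
      exact Real.rpow_pos_of_pos (lt_trans hr hs.1) _
    · exact hrR
  set I : ℝ := ∫ s in r..R, s ^ a with hI
  -- the parameter δ
  set δ : ℝ := min 1 (ε / 3) with hδ
  have hδ0 : 0 < δ := lt_min one_pos (by positivity)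
  have hδ1 : δ ≤ 1 := min_le_left _ _
  have hδ2 : δ ≤ ε / 3 := min_le_right _ _
  set V : ℝ := om n / n * r ^ n with hV
  have hVpos : 0 < V := by
    have : (0 : ℝ) < n := by linarith
    positivity
  have hgap : 0 < ((1 + δ) ^ α - 1) * (om n ^ (1 - α) * I) := by
    have h3 : 1 < (1 + δ) ^ α := Real.one_lt_rpow (by linarith) (by linarith)
    have h4 : 0 < om n ^ (1 - α) := by positivity
    have h5 : 0 < (1 + δ) ^ α - 1 := by linarith
    positivity
  set ε₁ : ℝ := min (kap n p * δ) ((((1 + δ) ^ α - 1) * (om n ^ (1 - α) * I) / V) ^ (1 / α))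
    with hε₁
  have hε₁0 : 0 < ε₁ := lt_min (by positivity) (by positivity)
  have hε₁1 : ε₁ ≤ kap n p * δ := min_le_left _ _
  have hε₁2 : ε₁ ^ α * V ≤ ((1 + δ) ^ α - 1) * (om n ^ (1 - α) * I) := by
    have h3 : ε₁ ≤ (((1 + δ) ^ α - 1) * (om n ^ (1 - α) * I) / V) ^ (1 / α) := min_le_right _ _
    have h4 : ε₁ ^ α ≤ ((((1 + δ) ^ α - 1) * (om n ^ (1 - α) * I) / V) ^ (1 / α)) ^ α :=
      Real.rpow_le_rpow hε₁0.le h3 (by linarith)
    rw [← Real.rpow_mul (by positivity), one_div, inv_mul_cancel₀ (by linarith),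
      Real.rpow_one] at h4
    calc ε₁ ^ α * V ≤ ((1 + δ) ^ α - 1) * (om n ^ (1 - α) * I) / V * V :=
          mul_le_mul_of_nonneg_right h4 hVpos.le
      _ = _ := by field_simp
  obtain ⟨f, Q, hQm, hring, hQ1, hQ2, x, hx, hfx⟩ := h1 n p hn2 hnp hpn r R (fun s => s ^ a) hr
    hrR (by
      intro s hs
      have : s ≠ 0 := (lt_of_lt_of_le hr hs.1).ne'
      exact (Real.continuousAt_rpow_const s a (Or.inl this)).continuousWithinAt)
    (fun s hs => Real.rpow_pos_of_pos (lt_of_lt_of_le hr hs.1) _) ε₁ hε₁0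
  -- bound for the integral
  have hball : ∫⁻ y in ball (0 : E n) R, Q y ^ α ≤
      ENNReal.ofReal ((1 + δ) ^ α * (om n ^ (1 - α) * I)) := by
    have hsub : ball (0 : E n) R ⊆ closedBall 0 r ∪ {y : E n | ‖y‖ ∈ Ioo r R} := by
      intro y hy
      rw [mem_ball_zero_iff] at hy
      by_cases h : ‖y‖ ≤ r
      · left
        rwa [mem_closedBall_zero_iff]
      · right
        exact ⟨not_le.mp h, hy⟩
    have hA : ∫⁻ y in closedBall (0 : E n) r, Q y ^ α ≤ ENNReal.ofReal (ε₁ ^ α * V) := by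
      calc ∫⁻ y in closedBall (0 : E n) r, Q y ^ α
          ≤ ∫⁻ _ in closedBall (0 : E n) r, ENNReal.ofReal (ε₁ ^ α) := by
            refine setLIntegral_mono (by fun_prop) fun y hy => ?_
            rw [mem_closedBall_zero_iff] at hy
            rw [← ENNReal.ofReal_rpow_of_nonneg hε₁0.le (by linarith)]
            exact ENNReal.rpow_le_rpow (hQ2 y hy) (by linarith)
        _ = ENNReal.ofReal (ε₁ ^ α * V) := by
            have : Nonempty (Fin n) := ⟨⟨0, hn⟩⟩
            have : Nontrivial (E n) := inferInstance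
            rw [setLIntegral_const, Measure.addHaar_closedBall_eq_addHaar_ball,
              vol_ball n hn 0 r hr.le, ← ENNReal.ofReal_mul (by positivity)]
    have hB : ∫⁻ y in {y : E n | ‖y‖ ∈ Ioo r R}, Q y ^ α =
        ENNReal.ofReal (om n ^ (1 - α) * I) := by
      rw [← ann n p α r R hn hp hα hr hrR]
      refine setLIntegral_congr_fun (measurable_norm measurableSet_Ioo) fun y hy => ?_
      rw [hQ1 y hy.1 hy.2]
    calc ∫⁻ y in ball (0 : E n) R, Q y ^ α
        ≤ ∫⁻ y in closedBall 0 r ∪ {y : E n | ‖y‖ ∈ Ioo r R}, Q y ^ α :=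
          lintegral_mono_set hsub
      _ ≤ (∫⁻ y in closedBall (0 : E n) r, Q y ^ α) +
          ∫⁻ y in {y : E n | ‖y‖ ∈ Ioo r R}, Q y ^ α := lintegral_union_le _ _ _
      _ ≤ ENNReal.ofReal (ε₁ ^ α * V) + ENNReal.ofReal (om n ^ (1 - α) * I) :=
          add_le_add hA hB.le
      _ = ENNReal.ofReal (ε₁ ^ α * V + om n ^ (1 - α) * I) := by
          rw [ENNReal.ofReal_add (by positivity) (by positivity)]
      _ ≤ _ := by
          apply ENNReal.ofReal_le_ofReal
          linarith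
  have hnrm : nrm α Q (ball 0 R) ≤
      ENNReal.ofReal ((1 + δ) * (om n ^ (1 - α) * I) ^ (1 / α)) := by
    unfold nrm
    have hnn : 0 ≤ (1 + δ) ^ α * (om n ^ (1 - α) * I) := by positivity
    refine (ENNReal.rpow_le_rpow hball (by positivity)).trans ?_
    rw [ENNReal.ofReal_rpow_of_nonneg hnn (by positivity),
      Real.mul_rpow (by positivity) (by positivity), ← Real.rpow_mul (by positivity),
      mul_one_div_cancel (by linarith), Real.rpow_one]
  refine ⟨f, Q, x, hQm, hring, hx, lt_of_le_of_lt hnrm ENNReal.ofReal_lt_top, ?_⟩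
  calc ENNReal.ofReal (om n ^ (1 - 1 / α) * I ^ (-(p - 1 + 1 / α))) * nrm α Q (ball 0 R)
      ≤ ENNReal.ofReal (om n ^ (1 - 1 / α) * I ^ (-(p - 1 + 1 / α))) *
        ENNReal.ofReal ((1 + δ) * (om n ^ (1 - α) * I) ^ (1 / α)) := by gcongr
    _ = ENNReal.ofReal ((1 + δ) * I ^ (1 - p)) := by
        rw [← ENNReal.ofReal_mul (by positivity)]
        congr 1
        rw [Real.mul_rpow (by positivity) (by positivity), ← Real.rpow_mul hom.le]
        have e1 : om n ^ (1 - 1 / α) * om n ^ ((1 - α) * (1 / α)) = 1 := by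
          rw [← Real.rpow_add hom]
          have : 1 - 1 / α + (1 - α) * (1 / α) = 0 := by
            have : α ≠ 0 := by linarith
            field_simp
            ring
          rw [this, Real.rpow_zero]
        have e2 : I ^ (-(p - 1 + 1 / α)) * I ^ (1 / α) = I ^ (1 - p) := by
          rw [← Real.rpow_add hIpos]
          congr 1
          ring
        calc om n ^ (1 - 1 / α) * I ^ (-(p - 1 + 1 / α)) *
              ((1 + δ) * (om n ^ ((1 - α) * (1 / α)) * I ^ (1 / α)))
            = (om n ^ (1 - 1 / α) * om n ^ ((1 - α) * (1 / α))) *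
              ((1 + δ) * (I ^ (-(p - 1 + 1 / α)) * I ^ (1 / α))) := by ring
          _ = _ := by rw [e1, e2, one_mul]
    _ ≤ ENNReal.ofReal ((1 + ε) * kap n p * ‖f x - f 0‖ ^ (n - p)) := by
        apply ENNReal.ofReal_le_ofReal
        have hF : 0 ≤ ‖f x - f 0‖ ^ (n - p) := by positivity
        have h3 : (1 + δ) * (1 + δ) ≤ 1 + ε := by nlinarith
        calc (1 + δ) * I ^ (1 - p) ≤ (1 + δ) * (‖f x - f 0‖ ^ (n - p) * (kap n p + ε₁)) := by
              gcongr
          _ ≤ (1 + δ) * (‖f x - f 0‖ ^ (n - p) * (kap n p + kap n p * δ)) := by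
              gcongr
          _ = ((1 + δ) * (1 + δ)) * (kap n p * ‖f x - f 0‖ ^ (n - p)) := by ring
          _ ≤ (1 + ε) * (kap n p * ‖f x - f 0‖ ^ (n - p)) := by
              gcongr
          _ = _ := by ring

end Pool.Agent.Helper64.RQ
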